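import Pool.Agent.Helper29.BL.PS
import Pool.Agent.Helper29.BL.GoalsA
import Pool.Agent.Helper29.BL.GoalsD
import Pool.Agent.Helper29.BL.GoalsF

/-!
# Project BL, second round (MP_a41896_nt), packet MAINg.
-/

set_option autoImplicit false

namespace Pool.Agent.Helper62.BL

open Pool.Agent.Helper29.BL WeierstrassCurve Height Height.AdmissibleAbsValues Polynomial
open scoped Polynomial.Bivariate

noncomputable section

lemma card_le_of_finite' {α : Type*} {S : Set α} (hS : S.Finite) :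
    ∃ N : ℕ, ∀ B : Finset α, (∀ z ∈ B, z ∈ S) → B.card ≤ N :=
  ⟨hS.toFinset.card, fun _ hB => Finset.card_le_card fun z hz => hS.mem_toFinset.2 (hB z hz)⟩

/-- the packing property for the first coordinates, at radius `ρ = √t` -/
lemma pk_cell {G : Type} [AddCommGroup G] {Γ : AddSubgroup G} {H : G → ℝ}
    (hneg : ∀ x, H (-x) = H x) (htri : ∀ x y, √(H (x + y)) ≤ √(H x) + √(H y)) {κ : ℝ}
    {N : ℕ} (hN : ∀ (B : Finset G), (∀ z ∈ B, z ∈ Γ) →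
      ∀ ρ : ℝ, 0 < ρ → (∀ z ∈ B, ∀ z' ∈ B, √(H (z - z')) ≤ κ * ρ) →
      ∃ f : G → Fin N, ∀ z ∈ B, ∀ z' ∈ B, f z = f z' → √(H (z - z')) ≤ ρ)
    (t s : ℝ) (ht : 0 < t) (hs : 2 * √s ≤ κ * √t) (B : Finset G) (hB : ∀ z ∈ B, z ∈ Γ)
    (hB2 : ∀ z ∈ B, H z ≤ s) :
    ∃ f : G → Fin N, ∀ z ∈ B, ∀ z' ∈ B, f z = f z' → H (z - z') ≤ t := by
  obtain ⟨f, hf⟩ := hN B hB (√t) (Real.sqrt_pos.2 ht) (fun z hz z' hz' => by
    have h3 := htri z (-z')
    rw [← sub_eq_add_neg, hneg z'] at h3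
    have h4 := Real.sqrt_le_sqrt (hB2 z hz)
    have h5 := Real.sqrt_le_sqrt (hB2 z' hz')
    linarith)
  refine ⟨f, fun z hz z' hz' h => ?_⟩
  exact (Real.sqrt_le_sqrt_iff ht.le).1 (hf z hz z' hz' h)

theorem maing_of : NORg → NOR → BALLg → NDg → ZPg → MAINg := by
  intro hNOR _ hBALL hND hZPP K _ _ _ W₁ W₂ H₁ H₂ c₀ e₁ e₂ hC1 hC2 Γ₁ Γ₂ hΓ₁ hΓ₂ δ hδ
  classical
  have hc₀ : 0 ≤ c₀ := (abs_nonneg _).trans (hC1.near 0)
  have hl2 : 0 < Real.log 2 := Real.log_pos (by norm_num)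
  have hfin : ∀ A : ℝ, {z : W₁.Point × W₂.Point | hx z.1 ≤ A ∧ hx z.2 ≤ A}.Finite := by
    intro A
    have h := ((hNOR K W₁ H₁ c₀ e₁ hC1).1 (A + c₀)).prod ((hNOR K W₂ H₂ c₀ e₂ hC2).1 (A + c₀))
    refine h.subset fun z hz => ⟨?_, ?_⟩
    · have h3 := (abs_le.1 (hC1.near z.1)).2
      have h4 : hx z.1 ≤ A := hz.1
      show H₁ z.1 ≤ A + c₀
      linarith
    · have h3 := (abs_le.1 (hC2.near z.2)).2
      have h4 : hx z.2 ≤ A := hz.2
      show H₂ z.2 ≤ A + c₀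
      linarith
  have htor : ∀ c : ℝ, (∀ z : W₁.Point × W₂.Point, gg z ≤ c) → ∃ (Z : K[X][Y]) (C : ℝ), Z ≠ 0 ∧
      ∀ T : ℝ, 2 ≤ T → ∀ B : Finset (W₁.Point × W₂.Point),
      (∀ z ∈ B, z.1 ∈ Γ₁ ∧ z.2 ∈ Γ₂ ∧ Aff z ∧ ev Z (kap z) ≠ 0 ∧ hx z.1 ≤ T ∧ hx z.2 ≤ T ∧
        δ * max (hx z.1) (hx z.2) ≤ gg z) → (B.card : ℝ) ≤ C * Real.log T ^ 2 := by
    intro c hc
    obtain ⟨N, hN⟩ := card_le_of_finite' (hfin (c / δ))
    refine ⟨1, N / Real.log 2 ^ 2, one_ne_zero, fun T hT B hB => ?_⟩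
    have h1 : B.card ≤ N := by
      refine hN B fun z hz => ?_
      obtain ⟨-, -, -, -, -, -, h⟩ := hB z hz
      have h2 : max (hx z.1) (hx z.2) ≤ c / δ := by
        rw [le_div_iff₀ hδ, mul_comm]
        exact h.trans (hc z)
      exact ⟨(le_max_left _ _).trans h2, (le_max_right _ _).trans h2⟩
    have h2 : Real.log 2 ≤ Real.log T := Real.log_le_log (by norm_num) hT
    have h3 : Real.log 2 ^ 2 ≤ Real.log T ^ 2 := pow_le_pow_left₀ hl2.le h2 2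
    have h4 : (0 : ℝ) ≤ N / Real.log 2 ^ 2 := by positivity
    calc (B.card : ℝ) ≤ N := by exact_mod_cast h1
      _ = N / Real.log 2 ^ 2 * Real.log 2 ^ 2 := by field_simp
      _ ≤ N / Real.log 2 ^ 2 * Real.log T ^ 2 := mul_le_mul_of_nonneg_left h3 h4
  by_cases h1 : ∃ P : W₁.Point, ∀ n : ℕ, 0 < n → n • P ≠ 0
  swap
  · push Not at h1
    refine htor c₀ fun z => (gg_le_left z).trans ?_
    obtain ⟨n, hn, hn0⟩ := h1 z.1
    have h2 := ((hNOR K W₁ H₁ c₀ e₁ hC1).2 z.1).2 ⟨n, hn, hn0⟩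
    have h3 := hC1.near z.1
    rw [h2, zero_sub, abs_neg] at h3
    exact (le_abs_self _).trans h3
  by_cases h2 : ∃ Q : W₂.Point, ∀ n : ℕ, 0 < n → n • Q ≠ 0
  swap
  · push Not at h2
    refine htor c₀ fun z => (gg_le_right z).trans ?_
    obtain ⟨n, hn, hn0⟩ := h2 z.2
    have h3 := ((hNOR K W₂ H₂ c₀ e₂ hC2).2 z.2).2 ⟨n, hn, hn0⟩
    have h4 := hC2.near z.2
    rw [h3, zero_sub, abs_neg] at h4
    exact (le_abs_self _).trans h4
  obtain ⟨P, hP⟩ := h1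
  obtain ⟨Q, hQ⟩ := h2
  obtain ⟨D, ε, hε, T₀, Cb, hCb, hT₀, hball⟩ :=
    hBALL K W₁ W₂ H₁ H₂ c₀ e₁ e₂ hC1 hC2 Γ₁ Γ₂ hΓ₁ hΓ₂ (δ / 2) (by positivity)
  obtain ⟨b, hb, hndeg⟩ := hND K W₁ W₂ H₁ H₂ c₀ e₁ e₂ hC1 hC2 D (P, Q) ⟨hP, hQ⟩
  have hNT : NT ((P, b • Q) : W₁.Point × W₂.Point) := by
    refine ⟨hP, fun n hn => ?_⟩
    show n • (b • Q) ≠ 0
    rw [smul_smul]
    exact hQ (n * b) (Nat.mul_pos hn hb)
  obtain ⟨Z, hZ, hZP⟩ := hZPP K W₁ W₂ H₁ H₂ c₀ e₁ e₂ hC1 hC2 D (P, b • Q) hNT hndeg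
  obtain ⟨N₁, hN₁⟩ := hΓ₁ (max 1 (2 * √(6 / ε))) (le_max_left _ _)
  obtain ⟨N₂, hN₂⟩ := hΓ₂ (max 1 (2 * √(6 / ε))) (le_max_left _ _)
  obtain ⟨N, hNN⟩ : ∃ N : ℕ, N = N₁ * N₂ := ⟨_, rfl⟩
  obtain ⟨T₁, hT₁, hT₀₁, hcT₁⟩ : ∃ T₁ : ℝ, 1 ≤ T₁ ∧ T₀ ≤ T₁ ∧ 2 * c₀ ≤ T₁ :=
    ⟨max T₀ (2 * c₀), hT₀.trans (le_max_left _ _), le_max_left _ _, le_max_right _ _⟩
  obtain ⟨N₀, hN₀⟩ := card_le_of_finite' (hfin T₁)
  have hlT₁ : 0 ≤ Real.log T₁ := Real.log_nonneg hT₁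
  -- one dyadic shell
  have shell : ∀ T' : ℝ, T₁ ≤ T' → ∀ B : Finset (W₁.Point × W₂.Point),
      (∀ z ∈ B, (z.1 ∈ Γ₁ ∧ z.2 ∈ Γ₂ ∧ Aff z ∧ ev Z (kap z) ≠ 0 ∧ hx z.1 ≤ T' ∧ hx z.2 ≤ T' ∧
        δ * max (hx z.1) (hx z.2) ≤ gg z) ∧ T' / 2 ≤ max (hx z.1) (hx z.2)) →
      (B.card : ℝ) ≤ N * (Cb * (1 + Real.log T')) := by
    intro T' hT' B hB
    have hT'0 : 0 < T' := by linarith
    have hsize : ∀ z ∈ B, H₁ z.1 + H₂ z.2 ≤ 3 * T' := by
      intro z hz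
      obtain ⟨⟨-, -, -, -, ha, hb, -⟩, -⟩ := hB z hz
      have h3 := (abs_le.1 (hC1.near z.1)).2
      have h4 := (abs_le.1 (hC2.near z.2)).2
      linarith
    have h6 : 2 * √(3 * T') ≤ max 1 (2 * √(6 / ε)) * √(ε * T' / 2) := by
      have h7 : √(3 * T') = √(6 / ε) * √(ε * T' / 2) := by
        rw [← Real.sqrt_mul (by positivity)]
        congr 1
        field_simp
        ring
      rw [h7, ← mul_assoc]
      exact mul_le_mul_of_nonneg_right (le_max_right _ _) (Real.sqrt_nonneg _)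
    have hεT : 0 < ε * T' / 2 := by positivity
    obtain ⟨f₁, hf₁⟩ := pk_cell hC1.neg hC1.tri hN₁ (ε * T' / 2) (3 * T') hεT h6
      (B.image Prod.fst) (fun w hw => by
        obtain ⟨z, hz, rfl⟩ := Finset.mem_image.1 hw
        exact (hB z hz).1.1) (fun w hw => by
        obtain ⟨z, hz, rfl⟩ := Finset.mem_image.1 hw
        have := hsize z hz
        have := hC2.nonneg z.2
        linarith)
    obtain ⟨f₂, hf₂⟩ := pk_cell hC2.neg hC2.tri hN₂ (ε * T' / 2) (3 * T') hεT h6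
      (B.image Prod.snd) (fun w hw => by
        obtain ⟨z, hz, rfl⟩ := Finset.mem_image.1 hw
        exact (hB z hz).1.2.1) (fun w hw => by
        obtain ⟨z, hz, rfl⟩ := Finset.mem_image.1 hw
        have := hsize z hz
        have := hC1.nonneg z.1
        linarith)
    obtain ⟨f, hf⟩ : ∃ f : W₁.Point × W₂.Point → Fin N₁ × Fin N₂, ∀ z ∈ B, ∀ z' ∈ B,
        f z = f z' → H₁ (z.1 - z'.1) + H₂ (z.2 - z'.2) ≤ ε * T' := by
      refine ⟨fun z => (f₁ z.1, f₂ z.2), fun z hz z' hz' h => ?_⟩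
      have g1 := hf₁ z.1 (Finset.mem_image_of_mem _ hz) z'.1 (Finset.mem_image_of_mem _ hz')
        (congrArg Prod.fst h)
      have g2 := hf₂ z.2 (Finset.mem_image_of_mem _ hz) z'.2 (Finset.mem_image_of_mem _ hz')
        (congrArg Prod.snd h)
      linarith
    have hfib : ∀ i : Fin N₁ × Fin N₂, (((B.filter fun z => f z = i).card : ℕ) : ℝ) ≤
        Cb * (1 + Real.log T') := by
      intro i
      refine hball T' (hT₀₁.trans hT') _ (fun z hz => ?_) ⟨fun z hz => ?_, fun z hz => ?_,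
        fun z hz => hsize z (Finset.mem_filter.1 hz).1, fun z hz z' hz' => ?_⟩ (fun z hz => ?_)
      · obtain ⟨hz, -⟩ := Finset.mem_filter.1 hz
        exact ⟨(hB z hz).1.1, (hB z hz).1.2.1⟩
      · obtain ⟨hz, -⟩ := Finset.mem_filter.1 hz
        exact (hZP z (hB z hz).1.2.2.1 (hB z hz).1.2.2.2.1).1
      · obtain ⟨hz, -⟩ := Finset.mem_filter.1 hz
        obtain ⟨⟨-, -, -, -, -, -, h3⟩, h4⟩ := hB z hz
        have h5 := mul_le_mul_of_nonneg_left h4 hδ.le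
        linarith
      · obtain ⟨hz, hzi⟩ := Finset.mem_filter.1 hz
        obtain ⟨hz', hzi'⟩ := Finset.mem_filter.1 hz'
        exact hf z hz z' hz' (hzi.trans hzi'.symm)
      · obtain ⟨hz, -⟩ := Finset.mem_filter.1 hz
        exact (hZP z (hB z hz).1.2.2.1 (hB z hz).1.2.2.2.1).2
    have hcard : B.card = ∑ i : Fin N₁ × Fin N₂, (B.filter fun z => f z = i).card :=
      Finset.card_eq_sum_card_fiberwise fun z _ => Finset.mem_coe.2 (Finset.mem_univ _)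
    rw [hcard]
    push_cast
    calc ∑ i : Fin N₁ × Fin N₂, (((B.filter fun z => f z = i).card : ℕ) : ℝ)
        ≤ ∑ _i : Fin N₁ × Fin N₂, Cb * (1 + Real.log T') := Finset.sum_le_sum fun i _ => hfib i
      _ = N * (Cb * (1 + Real.log T')) := by
        rw [Finset.sum_const, Finset.card_univ, Fintype.card_prod, Fintype.card_fin,
          Fintype.card_fin, nsmul_eq_mul, hNN]
  have ind : ∀ n : ℕ, ∀ B : Finset (W₁.Point × W₂.Point),
      (∀ z ∈ B, z.1 ∈ Γ₁ ∧ z.2 ∈ Γ₂ ∧ Aff z ∧ ev Z (kap z) ≠ 0 ∧ hx z.1 ≤ T₁ * 2 ^ n ∧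
        hx z.2 ≤ T₁ * 2 ^ n ∧ δ * max (hx z.1) (hx z.2) ≤ gg z) →
      (B.card : ℝ) ≤ N₀ + n * (N * (Cb * (1 + Real.log T₁ + n * Real.log 2))) := by
    intro n
    induction n with
    | zero =>
      intro B hB
      have h3 : B.card ≤ N₀ := hN₀ B fun z hz => by
        obtain ⟨-, -, -, -, h4, h5, -⟩ := hB z hz
        rw [pow_zero, mul_one] at h4 h5
        exact ⟨h4, h5⟩
      have h4 : (B.card : ℝ) ≤ N₀ := by exact_mod_cast h3
      simpa using h4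
    | succ n ih =>
      intro B hB
      have h3 := ih (B.filter fun z => max (hx z.1) (hx z.2) ≤ T₁ * 2 ^ n) (fun z hz => by
        obtain ⟨hz, hzm⟩ := Finset.mem_filter.1 hz
        obtain ⟨a1, a2, a3, a4, -, -, a7⟩ := hB z hz
        exact ⟨a1, a2, a3, a4, (le_max_left _ _).trans hzm, (le_max_right _ _).trans hzm, a7⟩)
      have h2n : (1 : ℝ) ≤ 2 ^ (n + 1) := one_le_pow₀ (by norm_num)
      have h4 := shell (T₁ * 2 ^ (n + 1)) (by nlinarith)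
        (B.filter fun z => ¬ max (hx z.1) (hx z.2) ≤ T₁ * 2 ^ n) (fun z hz => by
          obtain ⟨hz, hzm⟩ := Finset.mem_filter.1 hz
          refine ⟨hB z hz, ?_⟩
          push Not at hzm
          have : T₁ * 2 ^ (n + 1) / 2 = T₁ * 2 ^ n := by rw [pow_succ]; ring
          rw [this]
          exact hzm.le)
      have h5 : B.card = (B.filter fun z => max (hx z.1) (hx z.2) ≤ T₁ * 2 ^ n).card +
          (B.filter fun z => ¬ max (hx z.1) (hx z.2) ≤ T₁ * 2 ^ n).card :=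
        (Finset.card_filter_add_card_filter_not _).symm
      have h6 : Real.log (T₁ * 2 ^ (n + 1)) = Real.log T₁ + (n + 1 : ℕ) * Real.log 2 := by
        rw [Real.log_mul (by linarith) (by positivity), Real.log_pow]
      rw [h6] at h4
      have h7 : (0 : ℝ) ≤ n * (N * (Cb * Real.log 2)) := by positivity
      rw [h5]
      push_cast at h3 h4 ⊢
      nlinarith [h3, h4, h7]
  refine ⟨Z, N₀ / Real.log 2 ^ 2 + (2 / Real.log 2) * (N * Cb) *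
    ((1 + Real.log T₁) / Real.log 2 + 2), hZ, fun T hT B hB => ?_⟩
  have hT0 : 0 < T := by linarith
  have hL : Real.log 2 ≤ Real.log T := Real.log_le_log (by norm_num) hT
  obtain ⟨n, hn1, hn2⟩ : ∃ n : ℕ, T ≤ 2 ^ n ∧ (n : ℝ) ≤ 2 * (Real.log T / Real.log 2) := by
    refine ⟨⌈Real.logb 2 T⌉₊, ?_, ?_⟩
    · have h3 : Real.logb 2 T ≤ (⌈Real.logb 2 T⌉₊ : ℝ) := Nat.le_ceil _
      rw [← Real.rpow_natCast, ← Real.logb_le_iff_le_rpow (by norm_num) hT0]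
      exact h3
    · have h3 : (1 : ℝ) ≤ Real.logb 2 T := by
        rw [Real.logb, le_div_iff₀ hl2, one_mul]
        exact hL
      have h4 := Nat.ceil_lt_add_one (show 0 ≤ Real.logb 2 T by linarith)
      rw [← Real.log_div_log] at h3 h4 ⊢
      linarith
  have h3 := ind n B (fun z hz => by
    obtain ⟨a1, a2, a3, a4, a5, a6, a7⟩ := hB z hz
    have h2n : (0 : ℝ) < 2 ^ n := by positivity
    have hTn : T ≤ T₁ * 2 ^ n := by nlinarith
    exact ⟨a1, a2, a3, a4, a5.trans hTn, a6.trans hTn, a7⟩)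
  refine h3.trans ?_
  obtain ⟨r, hr⟩ : ∃ r, r = Real.log T / Real.log 2 := ⟨_, rfl⟩
  have hr1 : 1 ≤ r := by rw [hr, le_div_iff₀ hl2, one_mul]; exact hL
  have hlogT : Real.log T = r * Real.log 2 := by rw [hr]; field_simp
  rw [← hr] at hn2
  have e1 : (N₀ / Real.log 2 ^ 2 + (2 / Real.log 2) * (N * Cb) *
      ((1 + Real.log T₁) / Real.log 2 + 2)) * Real.log T ^ 2 =
      N₀ * r ^ 2 + 2 * r * (N * Cb) * ((1 + Real.log T₁) * r + 2 * r * Real.log 2) := by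
    rw [hlogT]
    field_simp
  rw [e1]
  have hr2 : (1 : ℝ) ≤ r ^ 2 := one_le_pow₀ hr1
  have f1 : (N₀ : ℝ) ≤ N₀ * r ^ 2 := le_mul_of_one_le_right (Nat.cast_nonneg _) hr2
  have f2 : 1 + Real.log T₁ + n * Real.log 2 ≤ (1 + Real.log T₁) * r + 2 * r * Real.log 2 := by
    have g1 : 1 + Real.log T₁ ≤ (1 + Real.log T₁) * r := le_mul_of_one_le_right (by linarith) hr1
    have g2 : (n : ℝ) * Real.log 2 ≤ 2 * r * Real.log 2 := mul_le_mul_of_nonneg_right hn2 hl2.le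
    linarith
  have f3 : (0 : ℝ) ≤ N * Cb := mul_nonneg (Nat.cast_nonneg _) hCb
  have f4 : (0 : ℝ) ≤ 1 + Real.log T₁ + n * Real.log 2 := by positivity
  have f5 : (n : ℝ) * (N * (Cb * (1 + Real.log T₁ + n * Real.log 2))) ≤
      2 * r * (N * Cb) * ((1 + Real.log T₁) * r + 2 * r * Real.log 2) := by
    calc (n : ℝ) * (N * (Cb * (1 + Real.log T₁ + n * Real.log 2)))
        = n * ((N * Cb) * (1 + Real.log T₁ + n * Real.log 2)) := by ring
      _ ≤ (2 * r) * ((N * Cb) * (1 + Real.log T₁ + n * Real.log 2)) :=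
        mul_le_mul_of_nonneg_right hn2 (mul_nonneg f3 f4)
      _ ≤ (2 * r) * ((N * Cb) * ((1 + Real.log T₁) * r + 2 * r * Real.log 2)) :=
        mul_le_mul_of_nonneg_left (mul_le_mul_of_nonneg_left f2 f3) (by linarith)
      _ = _ := by ring
  linarith

end

end Pool.Agent.Helper62.BL
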